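import Pool.Agent.Lib.MP_239067_co.PMX.Defs

/-!
The kernel of the bordered matrix counts the solutions of the conditions at the edges outside the
2-factor.  Let pos be the position on the circuit (A: sigma^k a0, B: sigma^k b0),
L v u = 1 iff v, u are in the same circuit and pos u <= pos v.  For y : R -> ZMod 2 let yh u = y of
the pair {u, tau u}.  K x x' = L x x' + L x (tau x') + L (tau x) x' + L (tau x) (tau x').
-/

set_option autoImplicit false

open Finset

namespace Pool.Agent.MP239067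

section L

variable {V : Type*} [Fintype V] [DecidableEq V]

theorem exists_posfun (σ : Equiv.Perm V) (A : Finset V)
    (hA : ∀ v, σ v ∈ A ↔ v ∈ A) (h1 : ∀ x ∈ A, ∀ y ∈ A, σ.SameCycle x y)
    (h2 : ∀ x, x ∉ A → ∀ y, y ∉ A → σ.SameCycle x y) (a0 b0 : V) (ha0 : a0 ∈ A) (hb0 : b0 ∉ A) :
    ∃ pos : V → ℕ, (∀ u v, (u ∈ A ↔ v ∈ A) → pos u = pos v → u = v) ∧
      (∀ v, v ≠ a0 → v ≠ b0 → pos v = pos (σ⁻¹ v) + 1) ∧
      pos a0 = 0 ∧ pos b0 = 0 ∧
      (∀ u, u ∈ A → pos u ≤ pos (σ⁻¹ a0)) ∧ (∀ u, u ∉ A → pos u ≤ pos (σ⁻¹ b0)) := by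
  classical
  have hA' : ∀ v, σ⁻¹ v ∈ A ↔ v ∈ A := by
    intro v
    rw [← hA (σ⁻¹ v)]
    simp
  let bs : V → V := fun v => if v ∈ A then a0 else b0
  have hex : ∀ v, ∃ k : ℕ, (σ ^ k) (bs v) = v := by
    intro v
    by_cases hv : v ∈ A
    · simp only [bs, if_pos hv]
      exact (h1 a0 ha0 v hv).exists_nat_pow_eq
    · simp only [bs, if_neg hv]
      exact (h2 b0 hb0 v hv).exists_nat_pow_eq
  let pos : V → ℕ := fun v => Nat.find (hex v)
  have hpos : ∀ v, (σ ^ (pos v)) (bs v) = v := fun v => Nat.find_spec (hex v)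
  have hmin : ∀ v k, (σ ^ k) (bs v) = v → pos v ≤ k := fun v k h => Nat.find_min' (hex v) h
  have hbs : ∀ v, bs (σ v) = bs v := by
    intro v
    simp only [bs, hA]
  have hbs' : ∀ v, bs (σ⁻¹ v) = bs v := by
    intro v
    simp only [bs, hA']
  have hbsa : bs a0 = a0 := by simp only [bs, if_pos ha0]
  have hbsb : bs b0 = b0 := by simp only [bs, if_neg hb0]
  have hlast : ∀ v w, bs v = v → bs w = v → pos w ≤ pos (σ⁻¹ v) := by
    intro v w hv hw
    by_contra h
    push Not at h
    -- sigma^(pos (sigma^-1 v) + 1) v = v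
    have e1 : (σ ^ (pos (σ⁻¹ v) + 1)) v = v := by
      have := hpos (σ⁻¹ v)
      rw [hbs', hv] at this
      rw [pow_succ', Equiv.Perm.mul_apply, this]
      simp
    obtain ⟨j, hj⟩ := Nat.exists_eq_add_of_le (Nat.succ_le_of_lt h)
    have e2 : (σ ^ j) (bs w) = w := by
      have := hpos w
      rw [hw, hj, Nat.succ_eq_add_one, add_comm, pow_add, Equiv.Perm.mul_apply, e1] at this
      rw [hw]
      exact this
    have e3 := hmin w j e2
    omega
  refine ⟨pos, ?_, ?_, ?_, ?_, ?_, ?_⟩
  · intro u v huv he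
    have e1 := hpos u
    have e2 := hpos v
    have e3 : bs u = bs v := by simp only [bs, huv]
    rw [he, e3, e2] at e1
    exact e1.symm
  · intro v hva hvb
    apply le_antisymm
    · apply hmin
      have := hpos (σ⁻¹ v)
      rw [hbs'] at this
      rw [pow_succ', Equiv.Perm.mul_apply, this]
      simp
    · rcases Nat.eq_zero_or_pos (pos v) with h0 | h0
      · exfalso
        have := hpos v
        rw [h0, pow_zero, Equiv.Perm.one_apply] at this
        by_cases hv : v ∈ A
        · simp only [bs, if_pos hv] at this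
          exact hva this.symm
        · simp only [bs, if_neg hv] at this
          exact hvb this.symm
      · obtain ⟨k, hk⟩ := Nat.exists_eq_succ_of_ne_zero h0.ne'
        have e1 := hpos v
        rw [hk, Nat.succ_eq_add_one, pow_succ', Equiv.Perm.mul_apply] at e1
        have e2 : (σ ^ k) (bs (σ⁻¹ v)) = σ⁻¹ v := by
          rw [hbs']
          rw [Equiv.Perm.eq_inv_iff_eq]
          exact e1
        have := hmin _ _ e2
        omega
  · have := hmin a0 0 (by rw [hbsa]; simp)
    omega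
  · have := hmin b0 0 (by rw [hbsb]; simp)
    omega
  · intro u hu
    exact hlast a0 u hbsa (by simp only [bs, if_pos hu])
  · intro u hu
    exact hlast b0 u hbsb (by simp only [bs, if_neg hu])

theorem exists_L (σ : Equiv.Perm V) (A : Finset V)
    (hA : ∀ v, σ v ∈ A ↔ v ∈ A) (h1 : ∀ x ∈ A, ∀ y ∈ A, σ.SameCycle x y)
    (h2 : ∀ x, x ∉ A → ∀ y, y ∉ A → σ.SameCycle x y) (a0 b0 : V) (ha0 : a0 ∈ A) (hb0 : b0 ∉ A) :
    ∃ L : V → V → ZMod 2,
      (∀ u v, u ≠ v → L u v + L v u = if (u ∈ A ↔ v ∈ A) then 1 else 0) ∧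
      (∀ v u, L v u + L (σ⁻¹ v) u = (if v = u then 1 else 0)
        + (if v = a0 then (if u ∈ A then 1 else 0) else 0)
        + (if v = b0 then (if u ∈ A then 0 else 1) else 0)) ∧
      (∀ u, L (σ⁻¹ a0) u = if u ∈ A then 1 else 0) ∧
      (∀ u, L (σ⁻¹ b0) u = if u ∈ A then 0 else 1) := by
  classical
  obtain ⟨pos, hinj, hstep, hpa, hpb, hla, hlb⟩ :=
    exists_posfun σ A hA h1 h2 a0 b0 ha0 hb0
  have hA' : ∀ v, σ⁻¹ v ∈ A ↔ v ∈ A := by
    intro v
    rw [← hA (σ⁻¹ v)]
    simp
  have hab : a0 ≠ b0 := by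
    intro h
    exact hb0 (h ▸ ha0)
  have h11 : (1 : ZMod 2) + 1 = 0 := by decide
  obtain ⟨L, hL⟩ : ∃ L : V → V → ZMod 2, ∀ v u,
      L v u = if (v ∈ A ↔ u ∈ A) ∧ pos u ≤ pos v then 1 else 0 := ⟨_, fun _ _ => rfl⟩
  refine ⟨L, ?_, ?_, ?_, ?_⟩
  · intro u v huv
    rw [hL, hL]
    by_cases hs : (u ∈ A ↔ v ∈ A)
    · have hs' : (v ∈ A ↔ u ∈ A) := hs.symm
      have hne : pos u ≠ pos v := fun h => huv (hinj u v hs h)
      rw [if_pos hs]
      rcases lt_or_gt_of_ne hne with h | h
      · rw [if_neg (by intro h'; omega), if_pos ⟨hs', h.le⟩, zero_add]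
      · rw [if_pos ⟨hs, by omega⟩, if_neg (by intro h'; omega), add_zero]
    · have hs' : ¬ (v ∈ A ↔ u ∈ A) := fun h => hs h.symm
      rw [if_neg hs, if_neg (fun h => hs h.1), if_neg (fun h => hs' h.1), add_zero]
  · intro v u
    rw [hL, hL]
    by_cases hva : v = a0
    · subst hva
      rw [if_neg hab, add_zero, if_pos rfl]
      by_cases hu : u ∈ A
      · rw [if_pos hu, if_pos (show (σ⁻¹ v ∈ A ↔ u ∈ A) ∧ pos u ≤ pos (σ⁻¹ v) from
          ⟨⟨fun _ => hu, fun _ => (hA' v).2 ha0⟩, hla u hu⟩)]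
        congr 1
        by_cases he : v = u
        · subst he
          rw [if_pos rfl, if_pos ⟨Iff.rfl, le_rfl⟩]
        · rw [if_neg he, if_neg]
          rintro ⟨h3, h4⟩
          rw [hpa] at h4
          exact he (hinj v u h3 (by rw [hpa]; omega))
      · have he : v ≠ u := fun h => hu (h ▸ ha0)
        rw [if_neg hu, if_neg he, if_neg, if_neg]
        · rintro ⟨h3, h4⟩
          exact hu (h3.1 ((hA' v).2 ha0))
        · rintro ⟨h3, h4⟩
          exact hu (h3.1 ha0)
    · by_cases hvb : v = b0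
      · subst hvb
        rw [if_neg hva, add_zero, if_pos rfl]
        by_cases hu : u ∈ A
        · have he : v ≠ u := fun h => hb0 (h ▸ hu)
          rw [if_pos hu, if_neg he, if_neg, if_neg]
          · rintro ⟨h3, h4⟩
            exact hb0 ((hA' v).1 (h3.2 hu))
          · rintro ⟨h3, h4⟩
            exact hb0 (h3.2 hu)
        · have h5 : σ⁻¹ v ∉ A := fun h => hb0 ((hA' v).1 h)
          rw [if_neg hu, if_pos (show (σ⁻¹ v ∈ A ↔ u ∈ A) ∧ pos u ≤ pos (σ⁻¹ v) from
            ⟨⟨fun h => absurd h h5, fun h => absurd h hu⟩, hlb u hu⟩)]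
          congr 1
          by_cases he : v = u
          · subst he
            rw [if_pos rfl, if_pos ⟨Iff.rfl, le_rfl⟩]
          · rw [if_neg he, if_neg]
            rintro ⟨h3, h4⟩
            rw [hpb] at h4
            exact he (hinj v u h3 (by rw [hpb]; omega))
      · rw [if_neg hva, if_neg hvb, add_zero, add_zero]
        have hst := hstep v hva hvb
        have hmem := hA' v
        by_cases hs : (v ∈ A ↔ u ∈ A)
        · have hs' : (σ⁻¹ v ∈ A ↔ u ∈ A) := hmem.trans hs
          by_cases he : v = u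
          · subst he
            rw [if_pos rfl, if_pos ⟨Iff.rfl, le_rfl⟩, if_neg (by rintro ⟨-, h⟩; omega), add_zero]
          · have hne : pos v ≠ pos u := fun h => he (hinj v u hs h)
            rw [if_neg he]
            by_cases hle : pos u ≤ pos v
            · rw [if_pos ⟨hs, hle⟩, if_pos ⟨hs', by omega⟩, h11]
            · rw [if_neg (fun h => hle h.2), if_neg (by rintro ⟨-, h⟩; omega), add_zero]
        · have hs' : ¬ (σ⁻¹ v ∈ A ↔ u ∈ A) := fun h => hs (hmem.symm.trans h)
          have he : v ≠ u := fun h => hs (by rw [h])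
          rw [if_neg he, if_neg (fun h => hs h.1), if_neg (fun h => hs' h.1), add_zero]
  · intro u
    rw [hL]
    have hm : σ⁻¹ a0 ∈ A := (hA' a0).2 ha0
    by_cases hu : u ∈ A
    · rw [if_pos hu]
      exact if_pos ⟨⟨fun _ => hu, fun _ => hm⟩, hla u hu⟩
    · rw [if_neg hu]
      exact if_neg (fun h => hu (h.1.1 hm))
  · intro u
    rw [hL]
    have hm : σ⁻¹ b0 ∉ A := fun h => hb0 ((hA' b0).1 h)
    by_cases hu : u ∈ A
    · rw [if_pos hu]
      exact if_neg (fun h => hm (h.1.2 hu))
    · rw [if_neg hu]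
      exact if_pos ⟨⟨fun h => absurd h hm, fun h => absurd h hu⟩, hlb u hu⟩

end L

section pairs

variable {V : Type*} [Fintype V] [DecidableEq V]

theorem sum_pairs (τ : Equiv.Perm V) (hinv : ∀ v, τ (τ v) = v) (R : Finset V)
    (hR : ∀ v, v ∈ R ↔ τ v ∉ R) (f : V → ZMod 2) :
    ∑ u, f u = ∑ x : R, (f x + f (τ x)) := by
  rw [← Finset.sum_add_sum_compl R f, Finset.sum_add_distrib, Finset.sum_coe_sort R f,
    Finset.sum_coe_sort R (fun x => f (τ x))]
  congr 1
  refine Finset.sum_bij' (fun u _ => τ u) (fun u _ => τ u) ?_ ?_ ?_ ?_ ?_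
  · intro u hu
    rw [mem_compl] at hu
    by_contra h
    exact hu ((hR u).2 h)
  · intro u hu
    rw [mem_compl]
    exact (hR u).1 hu
  · intro u _
    exact hinv u
  · intro u _
    exact hinv u
  · intro u _
    simp only [hinv]

/-- the value at the pair of `u` -/
noncomputable def yh (τ : Equiv.Perm V) (R : Finset V)
    (hR : ∀ v, v ∈ R ↔ τ v ∉ R) (y : R → ZMod 2) (u : V) : ZMod 2 :=
  if h : u ∈ R then y ⟨u, h⟩ else y ⟨τ u, by
    by_contra h'
    exact h ((hR u).2 h')⟩

omit [Fintype V] in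
theorem yh_mem (τ : Equiv.Perm V) (R : Finset V)
    (hR : ∀ v, v ∈ R ↔ τ v ∉ R) (y : R → ZMod 2) (x : R) : yh τ R hR y x = y x := by
  unfold yh
  rw [dif_pos x.2]

omit [Fintype V] in
theorem yh_tau (τ : Equiv.Perm V) (hinv : ∀ v, τ (τ v) = v) (R : Finset V)
    (hR : ∀ v, v ∈ R ↔ τ v ∉ R) (y : R → ZMod 2) (x : R) : yh τ R hR y (τ x) = y x := by
  unfold yh
  rw [dif_neg ((hR x).1 x.2)]
  congr 1
  apply Subtype.ext
  exact hinv x

/-- uniqueness -/
theorem uniq (σ : Equiv.Perm V) (A : Finset V)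
    (hA : ∀ v, σ v ∈ A ↔ v ∈ A) (h1 : ∀ x ∈ A, ∀ y ∈ A, σ.SameCycle x y)
    (h2 : ∀ x, x ∉ A → ∀ y, y ∉ A → σ.SameCycle x y) (a0 b0 : V) (ha0 : a0 ∈ A) (hb0 : b0 ∉ A)
    (f g : V → ZMod 2) (hd : ∀ v, f v + f (σ⁻¹ v) = g v + g (σ⁻¹ v)) (ha : f a0 = g a0)
    (hb : f b0 = g b0) : f = g := by
  have hstep : ∀ v, f (σ v) + g (σ v) = f v + g v := by
    intro v
    have := hd (σ v)
    rw [show σ⁻¹ (σ v) = v by simp] at this
    have key : ∀ a b c d : ZMod 2, a + b = c + d → a + c = b + d := by decide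
    exact key _ _ _ _ this
  have hpow : ∀ (k : ℕ) v, f ((σ ^ k) v) + g ((σ ^ k) v) = f v + g v := by
    intro k
    induction k with
    | zero => intro v; simp
    | succ k ih =>
      intro v
      rw [pow_succ', Equiv.Perm.mul_apply, hstep, ih]
  have h0 : ∀ a b : ZMod 2, a + b = 0 → a = b := by decide
  have h00 : ∀ a : ZMod 2, a + a = 0 := by decide
  funext v
  apply h0
  by_cases hv : v ∈ A
  · obtain ⟨k, hk⟩ := (h1 a0 ha0 v hv).exists_nat_pow_eq
    rw [← hk, hpow, ha, h00]
  · obtain ⟨k, hk⟩ := (h2 b0 hb0 v hv).exists_nat_pow_eq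
    rw [← hk, hpow, hb, h00]

end pairs

theorem kerCount {V : Type*} [Fintype V] [DecidableEq V] (σ τ : Equiv.Perm V)
    (hinv : ∀ v, τ (τ v) = v) (hfix : ∀ v, τ v ≠ v) (A : Finset V)
    (hA : ∀ v, σ v ∈ A ↔ v ∈ A) (h1 : ∀ x ∈ A, ∀ y ∈ A, σ.SameCycle x y)
    (h2 : ∀ x, x ∉ A → ∀ y, y ∉ A → σ.SameCycle x y) (hne : ∃ x, x ∈ A) (hne' : ∃ x, x ∉ A)
    (R : Finset V) (hR : ∀ v, v ∈ R ↔ τ v ∉ R) :
    ∃ K : Matrix R R (ZMod 2), K.IsSymm ∧ ∀ D : R → ZMod 2,
      Nat.card {g : V → ZMod 2 // ∀ x : R, Cond σ τ (D x) g x}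
        = 2 * Nat.card {z : Option R → ZMod 2 // (Khat K (rho τ A R) D).mulVec z = 0} := by
  classical
  obtain ⟨a0, ha0⟩ := hne
  obtain ⟨b0, hb0⟩ := hne'
  obtain ⟨L, hLs, hLd, hLa, hLb⟩ := exists_L σ A hA h1 h2 a0 b0 ha0 hb0
  have hA' : ∀ v, σ⁻¹ v ∈ A ↔ v ∈ A := by
    intro v
    rw [← hA (σ⁻¹ v)]
    simp
  have h00 : ∀ a : ZMod 2, a + a = 0 := by decide
  have hma : σ⁻¹ a0 ∈ A := (hA' a0).2 ha0
  have hmb : σ⁻¹ b0 ∉ A := fun h => hb0 ((hA' b0).1 h)
  let K : Matrix R R (ZMod 2) := fun x x' =>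
    (L x x' + L x (τ x')) + (L (τ x) x' + L (τ x) (τ x'))
  have hKs : K.IsSymm := by
    ext x x'
    change K x' x = K x x'
    by_cases hx : x = x'
    · rw [hx]
    · have hx' : (x : V) ≠ x' := fun h => hx (Subtype.ext h)
      have n1 : (x : V) ≠ τ x' := by
        intro h
        exact (hR x').1 x'.2 (h ▸ x.2)
      have n2 : τ x ≠ (x' : V) := by
        intro h
        exact (hR x).1 x.2 (h ▸ x'.2)
      have n3 : τ x ≠ τ (x' : V) := fun h => hx' (τ.injective h)
      have e1 := hLs _ _ hx'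
      have e2 := hLs _ _ n1
      have e3 := hLs _ _ n2
      have e4 := hLs _ _ n3
      have key : ∀ (p q r s : Prop) [Decidable p] [Decidable q] [Decidable r] [Decidable s]
          (a a' b b' c c' d d' : ZMod 2),
          a + a' = (if (p ↔ r) then 1 else 0) → b + b' = (if (p ↔ s) then 1 else 0) →
          c + c' = (if (q ↔ r) then 1 else 0) → d + d' = (if (q ↔ s) then 1 else 0) →
          (a' + c') + (b' + d') = (a + b) + (c + d) := by
        intro p q r s _ _ _ _
        by_cases hp : p <;> by_cases hq : q <;> by_cases hr : r <;> by_cases hs : s <;>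
          simp only [hp, hq, hr, hs, iff_self, iff_true, iff_false, true_iff, false_iff,
            not_true_eq_false, not_false_eq_true, if_true, if_false] <;> decide
      exact key _ _ _ _ _ _ _ _ _ _ _ _ e1 e2 e3 e4
  refine ⟨K, hKs, fun D => ?_⟩
  -- the function given by the differences
  let gy : (R → ZMod 2) → V → ZMod 2 := fun y v => ∑ u, L v u * yh τ R hR y u
  have hgyd : ∀ y v, gy y v + gy y (σ⁻¹ v) = yh τ R hR y v
      + (if v = a0 then (∑ u, (if u ∈ A then 1 else 0) * yh τ R hR y u) else 0)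
      + (if v = b0 then (∑ u, (if u ∈ A then 0 else 1) * yh τ R hR y u) else 0) := by
    intro y v
    simp only [gy]
    rw [← Finset.sum_add_distrib]
    have : ∀ u, L v u * yh τ R hR y u + L (σ⁻¹ v) u * yh τ R hR y u
        = (if v = u then yh τ R hR y u else 0)
        + (if v = a0 then (if u ∈ A then 1 else 0) * yh τ R hR y u else 0)
        + (if v = b0 then (if u ∈ A then 0 else 1) * yh τ R hR y u else 0) := by
      intro u
      rw [← add_mul, hLd v u, add_mul, add_mul]
      congr 1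
      · congr 1
        · rw [ite_mul, one_mul, zero_mul]
        · rw [ite_mul, zero_mul]
      · rw [ite_mul, zero_mul]
    rw [Finset.sum_congr rfl fun u _ => this u, Finset.sum_add_distrib, Finset.sum_add_distrib]
    congr 1
    · congr 1
      · rw [Finset.sum_ite_eq]
        rw [if_pos (mem_univ _)]
      · split_ifs
        · rfl
        · rw [Finset.sum_const_zero]
    · split_ifs
      · rfl
      · rw [Finset.sum_const_zero]
  -- sums over A and its complement
  have hSA : ∀ y, (∑ u, (if u ∈ A then 1 else 0) * yh τ R hR y u)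
      = ∑ x : R, rho τ A R x * y x := by
    intro y
    rw [sum_pairs τ hinv R hR]
    refine Finset.sum_congr rfl fun x _ => ?_
    rw [yh_mem, yh_tau τ hinv, ← add_mul]
    congr 1
    unfold rho
    by_cases hx : (x : V) ∈ A <;> by_cases hx' : τ x ∈ A <;>
      simp [hx, hx', h00 1]
  have hSB : ∀ y, (∑ u, (if u ∈ A then 0 else 1) * yh τ R hR y u)
      = ∑ x : R, rho τ A R x * y x := by
    intro y
    rw [sum_pairs τ hinv R hR]
    refine Finset.sum_congr rfl fun x _ => ?_
    rw [yh_mem, yh_tau τ hinv, ← add_mul]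
    congr 1
    unfold rho
    by_cases hx : (x : V) ∈ A <;> by_cases hx' : τ x ∈ A <;>
      simp [hx, hx', h00 1]
  have hgya : ∀ y, gy y (σ⁻¹ a0) = ∑ x : R, rho τ A R x * y x := by
    intro y
    rw [← hSA]
    refine Finset.sum_congr rfl fun u _ => ?_
    rw [hLa]
  have hgyb : ∀ y, gy y (σ⁻¹ b0) = ∑ x : R, rho τ A R x * y x := by
    intro y
    rw [← hSB]
    refine Finset.sum_congr rfl fun u _ => ?_
    rw [hLb]
  have hgyK : ∀ y (x : R), gy y x + gy y (τ x) = ∑ x' : R, K x x' * y x' := by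
    intro y x
    simp only [gy]
    rw [sum_pairs τ hinv R hR, sum_pairs τ hinv R hR, ← Finset.sum_add_distrib]
    refine Finset.sum_congr rfl fun x' _ => ?_
    rw [yh_mem, yh_tau τ hinv, ← add_mul, ← add_mul, ← add_mul]
  -- rows of the matrix
  have hrow : ∀ z : Option R → ZMod 2, (Khat K (rho τ A R) D).mulVec z = 0 ↔
      ((∑ x : R, rho τ A R x * z (some x)) = 0 ∧
        ∀ x : R, (∑ x' : R, K x x' * z (some x')) + D x * z (some x)
          + rho τ A R x * z none = 0) := by
    intro z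
    have hn : (Khat K (rho τ A R) D).mulVec z none = ∑ x : R, rho τ A R x * z (some x) := by
      simp only [Matrix.mulVec, dotProduct, Fintype.sum_option, Khat, zero_mul, zero_add]
    have hs : ∀ x : R, (Khat K (rho τ A R) D).mulVec z (some x)
        = (∑ x' : R, K x x' * z (some x')) + D x * z (some x) + rho τ A R x * z none := by
      intro x
      simp only [Matrix.mulVec, dotProduct, Fintype.sum_option, Khat]
      rw [add_comm]
      congr 1
      simp only [add_mul, Finset.sum_add_distrib]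
      congr 1
      simp only [ite_mul, zero_mul]
      rw [Finset.sum_ite_eq]
      rw [if_pos (mem_univ _)]
    constructor
    · intro h
      constructor
      · rw [← hn, h]; rfl
      · intro x
        rw [← hs, h]; rfl
    · rintro ⟨ha, hb⟩
      funext i
      cases i with
      | none => rw [hn, ha]; rfl
      | some x => rw [hs, hb]; rfl
  -- the function of a vector
  let G : ZMod 2 → (Option R → ZMod 2) → V → ZMod 2 := fun α z v =>
    gy (fun x => z (some x)) v + α + (if v ∈ A then 0 else z none)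
  -- the vector of a function
  let Z : (V → ZMod 2) → Option R → ZMod 2 := fun g i =>
    match i with
    | some x => g x + g (σ⁻¹ x)
    | none => g (σ⁻¹ a0) + g (σ⁻¹ b0)
  -- G is a solution
  have hGd : ∀ α z, (∑ x : R, rho τ A R x * z (some x)) = 0 → ∀ v,
      G α z v + G α z (σ⁻¹ v) = yh τ R hR (fun x => z (some x)) v := by
    intro α z hz v
    have e := hgyd (fun x => z (some x)) v
    rw [hSA, hSB, hz] at e
    simp only [ite_self, add_zero] at e
    simp only [G]
    rw [← e]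
    have : (if σ⁻¹ v ∈ A then 0 else z none) = (if v ∈ A then 0 else z none) := by
      by_cases hv : v ∈ A
      · rw [if_pos hv, if_pos ((hA' v).2 hv)]
      · rw [if_neg hv, if_neg (fun h => hv ((hA' v).1 h))]
    rw [this]
    have key : ∀ a b c d : ZMod 2, a + b + c + (d + b + c) = a + d := by decide
    exact key _ _ _ _
  have hGa : ∀ α z, (∑ x : R, rho τ A R x * z (some x)) = 0 → G α z (σ⁻¹ a0) = α := by
    intro α z hz
    simp only [G]
    rw [hgya, hz, if_pos hma, zero_add, add_zero]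
  have hGb : ∀ α z, (∑ x : R, rho τ A R x * z (some x)) = 0 →
      G α z (σ⁻¹ b0) = α + z none := by
    intro α z hz
    simp only [G]
    rw [hgyb, hz, if_neg hmb, zero_add]
  have hGK : ∀ α z (x : R), G α z x + G α z (τ x)
      = (∑ x' : R, K x x' * z (some x')) + rho τ A R x * z none := by
    intro α z x
    rw [← hgyK]
    simp only [G]
    have key : ∀ a b c d e : ZMod 2, a + b + c + (d + b + e) = a + d + (c + e) := by decide
    rw [key]
    congr 1
    unfold rho
    by_cases hx : (x : V) ∈ A <;> by_cases hx' : τ x ∈ A <;>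
      simp [hx, hx', h00]
  -- sum of the differences of a function over A
  have hsum : ∀ g : V → ZMod 2, (∀ x : R, Cond σ τ (D x) g x) →
      (∑ x : R, rho τ A R x * Z g (some x)) = 0 := by
    intro g hg
    have hyh : ∀ u, yh τ R hR (fun x => Z g (some x)) u = g u + g (σ⁻¹ u) := by
      intro u
      by_cases hu : u ∈ R
      · exact yh_mem τ R hR _ ⟨u, hu⟩
      · have hu' : τ u ∈ R := by
          by_contra h'
          exact hu ((hR u).2 h')
        have e1 := yh_tau τ hinv R hR (fun x => Z g (some x)) ⟨τ u, hu'⟩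
        simp only [hinv] at e1
        rw [e1]
        have e2 := (hg ⟨τ u, hu'⟩).1
        simp only [hinv] at e2
        exact e2
    rw [← hSA]
    simp only [hyh, mul_add, Finset.sum_add_distrib]
    have e3 : (∑ u, (if u ∈ A then (1 : ZMod 2) else 0) * g (σ⁻¹ u))
        = ∑ u, (if u ∈ A then (1 : ZMod 2) else 0) * g u := by
      refine Fintype.sum_equiv (σ⁻¹ : Equiv.Perm V) _ _ ?_
      intro u
      by_cases hu : u ∈ A
      · rw [if_pos hu, if_pos ((hA' u).2 hu)]
      · rw [if_neg hu, if_neg (fun h => hu ((hA' u).1 h))]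
    rw [e3]
    exact h00 _
  have hyh : ∀ g : V → ZMod 2, (∀ x : R, Cond σ τ (D x) g x) → ∀ u,
      yh τ R hR (fun x => Z g (some x)) u = g u + g (σ⁻¹ u) := by
    intro g hg u
    by_cases hu : u ∈ R
    · exact yh_mem τ R hR _ ⟨u, hu⟩
    · have hu' : τ u ∈ R := by
        by_contra h'
        exact hu ((hR u).2 h')
      have e1 := yh_tau τ hinv R hR (fun x => Z g (some x)) ⟨τ u, hu'⟩
      simp only [hinv] at e1
      rw [e1]
      have e2 := (hg ⟨τ u, hu'⟩).1
      simp only [hinv] at e2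
      exact e2
  have hrec : ∀ g : V → ZMod 2, (∀ x : R, Cond σ τ (D x) g x) →
      G (g (σ⁻¹ a0)) (Z g) = g := by
    intro g hg
    refine uniq σ A hA h1 h2 (σ⁻¹ a0) (σ⁻¹ b0) hma hmb _ _ ?_ ?_ ?_
    · intro v
      rw [hGd _ _ (hsum g hg), hyh g hg]
    · rw [hGa _ _ (hsum g hg)]
    · rw [hGb _ _ (hsum g hg)]
      change g (σ⁻¹ a0) + (g (σ⁻¹ a0) + g (σ⁻¹ b0)) = g (σ⁻¹ b0)
      rw [← add_assoc, h00, zero_add]
  have e : {g : V → ZMod 2 // ∀ x : R, Cond σ τ (D x) g x} ≃
      ZMod 2 × {z : Option R → ZMod 2 // (Khat K (rho τ A R) D).mulVec z = 0} :=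
    { toFun := fun g => (g.1 (σ⁻¹ a0), ⟨Z g.1, by
        rw [hrow]
        refine ⟨hsum g.1 g.2, fun x => ?_⟩
        have e1 := hGK (g.1 (σ⁻¹ a0)) (Z g.1) x
        rw [hrec g.1 g.2] at e1
        have e2 := (g.2 x).2
        have e3 : D x * (g.1 x + g.1 (σ⁻¹ x)) = D x * Z g.1 (some x) := rfl
        rw [e3, e1] at e2
        have key : ∀ a b c : ZMod 2, a + b = c → a + c + b = 0 := by decide
        exact key _ _ _ e2⟩)
      invFun := fun p => ⟨G p.1 p.2.1, by
        intro x
        have hz := (hrow p.2.1).1 p.2.2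
        have e1 := hGd p.1 p.2.1 hz.1 x
        have e2 := hGd p.1 p.2.1 hz.1 (τ x)
        rw [yh_mem] at e1
        rw [yh_tau τ hinv] at e2
        have e3 := hGK p.1 p.2.1 x
        constructor
        · rw [e1, e2]
        · rw [e1, e3]
          have key : ∀ a b c : ZMod 2, a + c + b = 0 → a + b = c := by decide
          exact key _ _ _ (hz.2 x)⟩
      left_inv := by
        intro g
        apply Subtype.ext
        exact hrec g.1 g.2
      right_inv := by
        intro p
        have hz := (hrow p.2.1).1 p.2.2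
        apply Prod.ext
        · exact hGa p.1 p.2.1 hz.1
        · apply Subtype.ext
          funext i
          cases i with
          | none =>
            change G p.1 p.2.1 (σ⁻¹ a0) + G p.1 p.2.1 (σ⁻¹ b0) = p.2.1 none
            rw [hGa _ _ hz.1, hGb _ _ hz.1, ← add_assoc, h00, zero_add]
          | some x =>
            change G p.1 p.2.1 x + G p.1 p.2.1 (σ⁻¹ x) = p.2.1 (some x)
            rw [hGd _ _ hz.1, yh_mem] }
  rw [Nat.card_congr e, Nat.card_prod]
  congr 1
  exact Nat.card_zmod 2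

end Pool.Agent.MP239067
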