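import Pool.Agent.Lib.MP_239067_co.PMX.KeyM
import Pool.Agent.Lib.MP_239067_co.PMX.Ker

/-! (b) assembly (helper59). -/

set_option autoImplicit false

open Finset

namespace Pool.Agent.MP239067

/-- both coordinates satisfy the conditions in the state `d` -/
noncomputable def WC {V : Type*} (σ τ : Equiv.Perm V) (c : V → ZMod 2 × ZMod 2) (d : ZMod 2)
    (x : V) : ℤ :=
  open Classical in
  if Cond σ τ d (fun v => (c v).1) x ∧ Cond σ τ d (fun v => (c v).2) x then 1 else 0

/-- the kernel of a square matrix over `ZMod 2`: one element if the determinant is nonzero,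
otherwise an even number -/
theorem ker_card {κ : Type*} [Fintype κ] [DecidableEq κ] (M : Matrix κ κ (ZMod 2)) :
    (M.det ≠ 0 → Nat.card {z : κ → ZMod 2 // M.mulVec z = 0} = 1) ∧
      (M.det = 0 → 2 ∣ Nat.card {z : κ → ZMod 2 // M.mulVec z = 0}) := by
  constructor
  · intro h
    have : Unique {z : κ → ZMod 2 // M.mulVec z = 0} :=
      { default := ⟨0, by simp⟩
        uniq := by
          rintro ⟨z, hz⟩
          apply Subtype.ext
          exact Matrix.eq_zero_of_mulVec_eq_zero h hz }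
    exact Nat.card_unique
  · intro h
    obtain ⟨v, hv, hMv⟩ := (Matrix.exists_mulVec_eq_zero_iff (M := M)).2 h
    classical
    -- the translation by v is a fixed point free involution
    rw [Nat.card_eq_fintype_card]
    have hinv : ∀ z : {z : κ → ZMod 2 // M.mulVec z = 0},
        M.mulVec ((z : κ → ZMod 2) + v) = 0 := by
      intro z
      rw [Matrix.mulVec_add, z.2, hMv, add_zero]
    have h2 : ∀ a b : ZMod 2, a + b + b = a := by decide
    let f : Function.End {z : κ → ZMod 2 // M.mulVec z = 0} :=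
      fun z => ⟨(z : κ → ZMod 2) + v, hinv z⟩
    have hf2 : f ^ (2 ^ 1) = 1 := by
      funext z
      apply Subtype.ext
      funext i
      change (z : κ → ZMod 2) i + v i + v i = (z : κ → ZMod 2) i
      exact h2 _ _
    have hfx : ∀ z, f z ≠ z := by
      intro z hz
      apply hv
      have h3 := congrArg Subtype.val hz
      change (z : κ → ZMod 2) + v = z at h3
      exact add_eq_left.mp h3
    have := Equiv.Perm.card_fixedPoints_modEq (f := f) (p := 2) (n := 1) hf2
    have h0 : Fintype.card (Function.fixedPoints f) = 0 := by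
      rw [Fintype.card_eq_zero_iff]
      exact ⟨fun z => hfx z.1 z.2⟩
    rw [h0] at this
    exact (Nat.modEq_zero_iff_dvd.1 this)

theorem ker_sq {κ : Type*} [Fintype κ] [DecidableEq κ] (M : Matrix κ κ (ZMod 2)) :
    ∃ k : ℤ, ((Nat.card {z : κ → ZMod 2 // M.mulVec z = 0} : ℕ) : ℤ) ^ 2
      = (if M.det = 0 then (0 : ℤ) else 1) + 4 * k := by
  by_cases h : M.det = 0
  · obtain ⟨a, ha⟩ := (ker_card M).2 h
    refine ⟨(a : ℤ) ^ 2, ?_⟩
    rw [if_pos h, ha]
    push_cast
    ring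
  · refine ⟨0, ?_⟩
    rw [if_neg h, (ker_card M).1 h]
    norm_num


/-- the number of solutions of all conditions, both coordinates -/
theorem sum_WC {V : Type*} [Fintype V] [DecidableEq V] (σ τ : Equiv.Perm V) (R : Finset V)
    (D : R → ZMod 2) :
    (∑ c : V → ZMod 2 × ZMod 2, ∏ x : R, WC σ τ c (D x) x)
      = ((Nat.card {g : V → ZMod 2 // ∀ x : R, Cond σ τ (D x) g x} : ℕ) : ℤ) ^ 2 := by
  classical
  have h1 : ∀ c : V → ZMod 2 × ZMod 2, (∏ x : R, WC σ τ c (D x) x)
      = (if ∀ x : R, Cond σ τ (D x) (fun v => (c v).1) x then (1 : ℤ) else 0)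
        * (if ∀ x : R, Cond σ τ (D x) (fun v => (c v).2) x then (1 : ℤ) else 0) := by
    intro c
    unfold WC
    rw [Finset.prod_ite_zero]
    by_cases ha : ∀ x : R, Cond σ τ (D x) (fun v => (c v).1) x
    · by_cases hb : ∀ x : R, Cond σ τ (D x) (fun v => (c v).2) x
      · rw [if_pos ha, if_pos hb, if_pos]
        · simp
        · intro x _
          exact ⟨ha x, hb x⟩
      · rw [if_neg hb, mul_zero, if_neg]
        intro h
        exact hb fun x => (h x (Finset.mem_univ _)).2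
    · rw [if_neg ha, zero_mul, if_neg]
      intro h
      exact ha fun x => (h x (Finset.mem_univ _)).1
  have h2 : (∑ c : V → ZMod 2 × ZMod 2, ∏ x : R, WC σ τ c (D x) x)
      = ∑ p : (V → ZMod 2) × (V → ZMod 2),
        (if ∀ x : R, Cond σ τ (D x) p.1 x then (1 : ℤ) else 0)
        * (if ∀ x : R, Cond σ τ (D x) p.2 x then (1 : ℤ) else 0) := by
    refine Fintype.sum_equiv (Equiv.arrowProdEquivProdArrow V (fun _ => ZMod 2) (fun _ => ZMod 2)) _ _ ?_
    intro c
    rw [h1 c]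
    rfl
  rw [h2, Fintype.sum_prod_type]
  have h3 : (∑ g : V → ZMod 2, (if ∀ x : R, Cond σ τ (D x) g x then (1 : ℤ) else 0))
      = ((Nat.card {g : V → ZMod 2 // ∀ x : R, Cond σ τ (D x) g x} : ℕ) : ℤ) := by
    rw [Nat.card_eq_fintype_card, Fintype.card_subtype, Finset.sum_boole]
  rw [← h3, sq, Finset.sum_mul_sum]

theorem rho_eq_one {V : Type*} [DecidableEq V] (τ : Equiv.Perm V) (A R : Finset V) (i : R) :
    rho τ A R i = 1 ↔ (((i : V) ∈ A ∧ τ i ∉ A) ∨ ((i : V) ∉ A ∧ τ i ∈ A)) := by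
  unfold rho
  by_cases h : ((i : V) ∈ A ∧ τ i ∉ A) ∨ ((i : V) ∉ A ∧ τ i ∈ A)
  · rw [if_pos h]
    exact ⟨fun _ => h, fun _ => rfl⟩
  · rw [if_neg h]
    exact ⟨fun h' => absurd h' (by decide), fun h' => absurd h' h⟩

theorem core {V : Type*} [Fintype V] [DecidableEq V] (σ τ : Equiv.Perm V)
    (hinv : ∀ v, τ (τ v) = v) (hfix : ∀ v, τ v ≠ v) (A : Finset V)
    (hA : ∀ v, σ v ∈ A ↔ v ∈ A) (h1 : ∀ x ∈ A, ∀ y ∈ A, σ.SameCycle x y)
    (h2 : ∀ x, x ∉ A → ∀ y, y ∉ A → σ.SameCycle x y)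
    (hr : (univ.filter (fun v => v ∈ A ∧ τ v ∉ A)).card % 4 = 3) :
    ∃ c : V → Fin 4, ∀ v, c (σ⁻¹ v) ≠ c v ∧
      ((c (σ⁻¹ v) = c (σ⁻¹ (τ v)) ∧ c v = c (τ v)) ∨
        (c (σ⁻¹ v) = c (τ v) ∧ c v = c (σ⁻¹ (τ v)))) := by
  classical
  -- a rung
  have hpos : (univ.filter (fun v => v ∈ A ∧ τ v ∉ A)).Nonempty := by
    rw [← Finset.card_pos]
    omega
  obtain ⟨w, hw⟩ := hpos
  simp only [mem_filter, mem_univ, true_and] at hw
  -- a transversal
  let e := Fintype.equivFin V
  let R : Finset V := univ.filter (fun v => e v < e (τ v))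
  have hR : ∀ v, v ∈ R ↔ τ v ∉ R := by
    intro v
    simp only [R, mem_filter, mem_univ, true_and, hinv, not_lt]
    constructor
    · intro h
      exact h.le
    · intro h
      refine lt_of_le_of_ne h ?_
      intro h'
      exact hfix v (e.injective h').symm
  obtain ⟨K, hK, hcount⟩ := kerCount σ τ hinv hfix A hA h1 h2 ⟨w, hw.1⟩ ⟨τ w, hw.2⟩ R hR
  -- number of rungs
  have hcard : (univ.filter (fun i : R => rho τ A R i = 1)).card
      = (univ.filter (fun v => v ∈ A ∧ τ v ∉ A)).card := by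
    refine Finset.card_bij' (fun i _ => if (i : V) ∈ A then (i : V) else τ i)
      (fun v _ => if h : v ∈ R then ⟨v, h⟩ else ⟨τ v, by
        by_contra h'
        exact h ((hR v).2 h')⟩) ?_ ?_ ?_ ?_
    · intro i hi
      rw [mem_filter, rho_eq_one] at hi
      rw [mem_filter]
      refine ⟨mem_univ _, ?_⟩
      rcases hi.2 with h | h
      · rw [if_pos h.1]
        exact h
      · rw [if_neg h.1]
        refine ⟨h.2, ?_⟩
        rw [hinv]
        exact h.1
    · intro v hv
      rw [mem_filter] at hv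
      have hv' := hv.2
      rw [mem_filter, rho_eq_one]
      refine ⟨mem_univ _, ?_⟩
      by_cases h : v ∈ R
      · rw [dif_pos h]
        exact Or.inl hv'
      · rw [dif_neg h]
        refine Or.inr ⟨hv'.2, ?_⟩
        change τ (τ v) ∈ A
        rw [hinv]
        exact hv'.1
    · intro i hi
      rw [mem_filter, rho_eq_one] at hi
      apply Subtype.ext
      rcases hi.2 with h | h
      · simp only [if_pos h.1]
        rw [dif_pos i.2]
      · simp only [if_neg h.1]
        rw [dif_neg ((hR i).1 i.2)]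
        exact hinv _
    · intro v hv
      rw [mem_filter] at hv
      have hv' := hv.2
      by_cases h : v ∈ R
      · rw [dif_pos h]
        simp only [if_pos hv'.1]
      · rw [dif_neg h]
        simp only [if_neg hv'.2]
        exact hinv _
  have hkey := keyM K hK (rho τ A R) (by rw [hcard]; exact hr)
  -- the signed sum
  set P4 : ℤ := ∑ c : V → ZMod 2 × ZMod 2, ∏ x : R, ∑ d : ZMod 2, sg d * WC σ τ c d x with hP4
  have hP : P4 = ∑ D : R → ZMod 2, (∏ x : R, sg (D x)) *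
      ((Nat.card {g : V → ZMod 2 // ∀ x : R, Cond σ τ (D x) g x} : ℕ) : ℤ) ^ 2 := by
    rw [hP4]
    have : ∀ c : V → ZMod 2 × ZMod 2, (∏ x : R, ∑ d : ZMod 2, sg d * WC σ τ c d x)
        = ∑ D : R → ZMod 2, (∏ x : R, sg (D x)) * ∏ x : R, WC σ τ c (D x) x := by
      intro c
      rw [Finset.prod_univ_sum, Fintype.piFinset_univ]
      refine Finset.sum_congr rfl fun D _ => ?_
      rw [Finset.prod_mul_distrib]
    rw [Finset.sum_congr rfl fun c _ => this c, Finset.sum_comm]
    refine Finset.sum_congr rfl fun D _ => ?_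
    rw [← Finset.mul_sum, sum_WC]
  have hmod : P4 % 16 = 8 := by
    have hk : ∀ D : R → ZMod 2, ∃ k : ℤ,
        ((Nat.card {g : V → ZMod 2 // ∀ x : R, Cond σ τ (D x) g x} : ℕ) : ℤ) ^ 2
          = 4 * (if (Khat K (rho τ A R) D).det = 0 then (0 : ℤ) else 1) + 16 * k := by
      intro D
      obtain ⟨k, hk⟩ := ker_sq (Khat K (rho τ A R) D)
      refine ⟨k, ?_⟩
      rw [hcount D]
      push_cast
      rw [mul_pow, hk]
      ring
    choose k hk using hk
    have h3 : P4 = 4 * (∑ D : R → ZMod 2, (∏ x, sg (D x)) *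
        (if (Khat K (rho τ A R) D).det = 0 then (0 : ℤ) else 1))
        + 16 * ∑ D : R → ZMod 2, (∏ x, sg (D x)) * k D := by
      rw [hP, Finset.mul_sum, Finset.mul_sum, ← Finset.sum_add_distrib]
      refine Finset.sum_congr rfl fun D _ => ?_
      rw [hk D]
      ring
    omega
  have hne : P4 ≠ 0 := by
    intro h
    rw [h] at hmod
    norm_num at hmod
  obtain ⟨c, -, hc⟩ := Finset.exists_ne_zero_of_sum_ne_zero hne
  rw [Finset.prod_ne_zero_iff] at hc
  -- one representative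
  have hx : ∀ x ∈ R, c (σ⁻¹ x) ≠ c x ∧
      ((c (σ⁻¹ x) = c (σ⁻¹ (τ x)) ∧ c x = c (τ x)) ∨
        (c (σ⁻¹ x) = c (τ x) ∧ c x = c (σ⁻¹ (τ x)))) := by
    intro x hxR
    have h4 := hc ⟨x, hxR⟩ (Finset.mem_univ _)
    have h5 : (∑ d : ZMod 2, sg d * WC σ τ c d x) = WC σ τ c 0 x - WC σ τ c 1 x := by
      have : (Finset.univ : Finset (ZMod 2)) = {0, 1} := rfl
      rw [this, Finset.sum_pair (by decide)]
      simp [sg]
      ring
    rw [h5] at h4
    -- coordinates
    have key : ∀ a b a' b' : ZMod 2 × ZMod 2,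
        ((a.1 + b.1 = a'.1 + b'.1 ∧ a.1 + a'.1 = 0 * (a.1 + b.1)) ∧
          (a.2 + b.2 = a'.2 + b'.2 ∧ a.2 + a'.2 = 0 * (a.2 + b.2)) → (b = b' ∧ a = a')) ∧
        ((a.1 + b.1 = a'.1 + b'.1 ∧ a.1 + a'.1 = 1 * (a.1 + b.1)) ∧
          (a.2 + b.2 = a'.2 + b'.2 ∧ a.2 + a'.2 = 1 * (a.2 + b.2)) → (b = a' ∧ a = b')) := by
      decide
    have h0 := (key (c x) (c (σ⁻¹ x)) (c (τ x)) (c (σ⁻¹ (τ x)))).1
    have h1' := (key (c x) (c (σ⁻¹ x)) (c (τ x)) (c (σ⁻¹ (τ x)))).2
    have heq : c (σ⁻¹ x) = c x → WC σ τ c 0 x = WC σ τ c 1 x := by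
      intro he
      unfold WC
      have : (Cond σ τ 0 (fun v => (c v).1) x ∧ Cond σ τ 0 (fun v => (c v).2) x) ↔
          (Cond σ τ 1 (fun v => (c v).1) x ∧ Cond σ τ 1 (fun v => (c v).2) x) := by
        unfold Cond
        simp only [he]
        have h6 : ∀ a : ZMod 2, a + a = 0 := by decide
        simp only [h6, mul_zero]
      simp only [this]
    refine ⟨fun he => h4 (by rw [heq he, sub_self]), ?_⟩
    by_cases hc0 : Cond σ τ 0 (fun v => (c v).1) x ∧ Cond σ τ 0 (fun v => (c v).2) x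
    · exact Or.inl (h0 hc0)
    · by_cases hc1 : Cond σ τ 1 (fun v => (c v).1) x ∧ Cond σ τ 1 (fun v => (c v).2) x
      · exact Or.inr (h1' hc1)
      · exfalso
        apply h4
        unfold WC
        rw [if_neg hc0, if_neg hc1, sub_self]
  let e4 : ZMod 2 × ZMod 2 ≃ Fin 4 := Fintype.equivFinOfCardEq (by decide)
  refine ⟨fun v => e4 (c v), fun v => ?_⟩
  have hv : c (σ⁻¹ v) ≠ c v ∧
      ((c (σ⁻¹ v) = c (σ⁻¹ (τ v)) ∧ c v = c (τ v)) ∨
        (c (σ⁻¹ v) = c (τ v) ∧ c v = c (σ⁻¹ (τ v)))) := by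
    by_cases h : v ∈ R
    · exact hx v h
    · have h' : τ v ∈ R := by
        by_contra h''
        exact h ((hR v).2 h'')
      have h7 := hx (τ v) h'
      rw [hinv] at h7
      obtain ⟨ha, hb | hb⟩ := h7
      · refine ⟨?_, Or.inl ⟨hb.1.symm, hb.2.symm⟩⟩
        rw [← hb.1, ← hb.2]
        exact ha
      · refine ⟨?_, Or.inr ⟨hb.2.symm, hb.1.symm⟩⟩
        rw [← hb.1, ← hb.2]
        exact ha.symm
  simp only [ne_eq, EmbeddingLike.apply_eq_iff_eq]
  exact hv

end Pool.Agent.MP239067
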