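import Mathlib

/-!
MP_239067_co, Theorem A: a cubic multigraph with a 2-factor of two circuits joined by
r = 3 (mod 4) edges has four perfect matchings which cover every edge of the 2-factor exactly
once and every other edge exactly twice.  Definitions for the linear algebra part.
-/

set_option autoImplicit false

namespace Pool.Agent.MP239067

/-- the sign of a state: `1` for `0`, `-1` for `1` -/
def sg (d : ZMod 2) : ℤ := if d = 0 then 1 else -1

/-- the bordered matrix `[[K + D, rho], [rho^T, 0]]` -/
def Khat {ι : Type*} [DecidableEq ι] (K : Matrix ι ι (ZMod 2)) (ρ D : ι → ZMod 2) :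
    Matrix (Option ι) (Option ι) (ZMod 2) := fun i j =>
  match i, j with
  | some a, some b => K a b + (if a = b then D a else 0)
  | some a, none => ρ a
  | none, some b => ρ b
  | none, none => 0

/-- the two conditions at the edge `{x, τ x}` outside the 2-factor (`σ` = successor on the
2-factor, `g v` = value on the arc from `v` to `σ v`) in the state `d` -/
def Cond {V : Type*} (σ τ : Equiv.Perm V) (d : ZMod 2) (g : V → ZMod 2) (x : V) : Prop :=
  g x + g (σ⁻¹ x) = g (τ x) + g (σ⁻¹ (τ x)) ∧ g x + g (τ x) = d * (g x + g (σ⁻¹ x))

/-- indicator of the rungs on a transversal `R` of the pairs `{v, τ v}` -/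
def rho {V : Type*} [DecidableEq V] (τ : Equiv.Perm V) (A R : Finset V) : R → ZMod 2 := fun x =>
  if ((x : V) ∈ A ∧ τ x ∉ A) ∨ ((x : V) ∉ A ∧ τ x ∈ A) then 1 else 0

end Pool.Agent.MP239067
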