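import Pool.Agent.Lib.MP_239067_co.PMX.Mat

/-!
The number of pairs of matchings which both cover the point `o` and are disjoint elsewhere,
modulo 4.
-/

set_option autoImplicit false

namespace Pool.Agent.MP239067

open Finset Equiv

variable {V : Type*} [Fintype V] [DecidableEq V]

/-- pairs of involutions along `M`, both moving `o`, disjoint elsewhere -/
def WW (M : Matrix V V (ZMod 2)) (o : V) : Finset (Perm V × Perm V) :=
  (ivs M ×ˢ ivs M).filter fun p => (p.1 o ≠ o ∧ p.2 o ≠ o) ∧ ∀ i, i ≠ o → p.1 i = i ∨ p.2 i = i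

/-- the same with given partners of `o` -/
def Wab (M : Matrix V V (ZMod 2)) (o a b : V) : Finset (Perm V × Perm V) :=
  (WW M o).filter fun p => p.1 o = a ∧ p.2 o = b

theorem mem_WW {M : Matrix V V (ZMod 2)} {o : V} {p : Perm V × Perm V} :
    p ∈ WW M o ↔ ((∀ i, p.1 (p.1 i) = i) ∧ ∀ i, p.1 i ≠ i → M (p.1 i) i = 1) ∧
      ((∀ i, p.2 (p.2 i) = i) ∧ ∀ i, p.2 i ≠ i → M (p.2 i) i = 1) ∧
      (p.1 o ≠ o ∧ p.2 o ≠ o) ∧ ∀ i, i ≠ o → p.1 i = i ∨ p.2 i = i := by
  unfold WW ivs
  simp only [Finset.mem_filter, Finset.mem_product, Finset.mem_univ, true_and]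
  tauto

theorem mem_Wab {M : Matrix V V (ZMod 2)} {o a b : V} {p : Perm V × Perm V} :
    p ∈ Wab M o a b ↔ p ∈ WW M o ∧ p.1 o = a ∧ p.2 o = b := by
  unfold Wab
  rw [Finset.mem_filter]

theorem Wab_swap (M : Matrix V V (ZMod 2)) (o a b : V) :
    (Wab M o a b).card = (Wab M o b a).card := by
  refine Finset.card_bij' (fun p _ => (p.2, p.1)) (fun p _ => (p.2, p.1)) ?_ ?_ ?_ ?_
  · intro p hp
    rw [mem_Wab, mem_WW] at hp ⊢
    obtain ⟨⟨h1, h2, h3, h4⟩, h5, h6⟩ := hp
    exact ⟨⟨h2, h1, ⟨h3.2, h3.1⟩, fun i hi => (h4 i hi).symm⟩, h6, h5⟩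
  · intro p hp
    rw [mem_Wab, mem_WW] at hp ⊢
    obtain ⟨⟨h1, h2, h3, h4⟩, h5, h6⟩ := hp
    exact ⟨⟨h2, h1, ⟨h3.2, h3.1⟩, fun i hi => (h4 i hi).symm⟩, h6, h5⟩
  · intro p _; rfl
  · intro p _; rfl

/-- partners are different -/
theorem Wab_ne {M : Matrix V V (ZMod 2)} {o : V} {p : Perm V × Perm V} (hp : p ∈ WW M o) :
    p.1 o ≠ p.2 o := by
  obtain ⟨⟨a1, a2⟩, ⟨b1, b2⟩, ⟨c1, c2⟩, d⟩ := mem_WW.1 hp
  intro he
  rcases d (p.1 o) c1 with h | h
  · rw [a1] at h; exact c1 h.symm
  · rw [he, b1] at h; exact c2 h.symm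

/-- toggling -/
def tg (o a b : V) (p : Perm V × Perm V) : Perm V × Perm V :=
  (swap o a * (swap o b * p.2), swap o b * (swap o a * p.1))

omit [Fintype V] in
theorem tg_aux {o a b : V} (hoa : o ≠ a) (hob : o ≠ b) (hab : a ≠ b) {t : Perm V}
    (t1 : t o = b) (t2 : t b = o) (t3 : t a = a) (i : V) :
    (swap o a * (swap o b * t)) i =
      if i = o then a else if i = a then o else if i = b then b else t i := by
  rw [Perm.mul_apply, Perm.mul_apply]
  by_cases e : i = o
  · rw [if_pos e, e, t1, swap_apply_right, swap_apply_left]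
  · rw [if_neg e]
    by_cases e1 : i = a
    · rw [if_pos e1, e1, t3, swap_apply_of_ne_of_ne hoa.symm hab, swap_apply_right]
    · rw [if_neg e1]
      by_cases e2 : i = b
      · rw [if_pos e2, e2, t2, swap_apply_left, swap_apply_of_ne_of_ne hob.symm hab.symm]
      · rw [if_neg e2]
        have n1 : t i ≠ o := fun h => e2 (t.injective (h.trans t2.symm))
        have n2 : t i ≠ b := fun h => e (t.injective (h.trans t1.symm))
        have n3 : t i ≠ a := fun h => e1 (t.injective (h.trans t3.symm))
        rw [swap_apply_of_ne_of_ne n1 n2, swap_apply_of_ne_of_ne n1 n3]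

theorem tg_facts {M : Matrix V V (ZMod 2)} (hM : ∀ i j, M i j = M j i) {o a b : V}
    {p : Perm V × Perm V} (hp : p ∈ Wab M o a b) :
    (∀ i, (tg o a b p).1 i = if i = o then a else if i = a then o else if i = b then b else p.2 i) ∧
    (∀ i, (tg o a b p).2 i = if i = o then b else if i = b then o else if i = a then a else p.1 i) ∧
    tg o a b p ∈ Wab M o a b ∧ tg o a b (tg o a b p) = p := by
  obtain ⟨hw, e1, e2⟩ := mem_Wab.1 hp
  have hne := Wab_ne hw
  obtain ⟨⟨a1, a2⟩, ⟨b1, b2⟩, ⟨c1, c2⟩, d⟩ := mem_WW.1 hw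
  rw [e1] at c1
  rw [e2] at c2
  rw [e1, e2] at hne
  have pa : p.1 a = o := by rw [← e1, a1]
  have qb : p.2 b = o := by rw [← e2, b1]
  have pb : p.1 b = b := (d b c2).resolve_right (by rw [qb]; exact c2.symm)
  have qa : p.2 a = a := (d a c1).resolve_left (by rw [pa]; exact c1.symm)
  have f1 := tg_aux (t := p.2) c1.symm c2.symm hne e2 qb qa
  have f2 := tg_aux (t := p.1) c2.symm c1.symm hne.symm e1 pa pb
  have mMa : M a o = 1 := by have := a2 o (by rw [e1]; exact c1); rwa [e1] at this
  have mMb : M b o = 1 := by have := b2 o (by rw [e2]; exact c2); rwa [e2] at this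
  have mem : tg o a b p ∈ Wab M o a b := by
    rw [mem_Wab, mem_WW]
    refine ⟨⟨⟨fun i => ?_, fun i hi => ?_⟩, ⟨fun i => ?_, fun i hi => ?_⟩, ⟨?_, ?_⟩, fun i hi => ?_⟩, ?_, ?_⟩
    · show (swap o a * (swap o b * p.2)) ((swap o a * (swap o b * p.2)) i) = i
      rw [f1 i]
      by_cases x : i = o
      · rw [if_pos x, f1, if_neg c1, if_pos rfl, x]
      · rw [if_neg x]
        by_cases y : i = a
        · rw [if_pos y, f1, if_pos rfl, y]
        · rw [if_neg y]
          by_cases z : i = b
          · rw [if_pos z, f1, if_neg c2, if_neg hne.symm, if_pos rfl, z]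
          · rw [if_neg z, f1]
            have n1 : p.2 i ≠ o := fun h => z (p.2.injective (h.trans qb.symm))
            have n2 : p.2 i ≠ b := fun h => x (p.2.injective (h.trans e2.symm))
            have n3 : p.2 i ≠ a := fun h => y (p.2.injective (h.trans qa.symm))
            rw [if_neg n1, if_neg n3, if_neg n2, b1]
    · show M ((swap o a * (swap o b * p.2)) i) i = 1
      have hi : (swap o a * (swap o b * p.2)) i ≠ i := hi
      rw [f1 i] at hi ⊢
      by_cases x : i = o
      · rw [if_pos x, x]; exact mMa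
      · rw [if_neg x] at hi ⊢
        by_cases y : i = a
        · rw [if_pos y, y, hM]; exact mMa
        · rw [if_neg y] at hi ⊢
          by_cases z : i = b
          · rw [if_pos z] at hi; exact absurd z.symm hi
          · rw [if_neg z] at hi ⊢; exact b2 i hi
    · show (swap o b * (swap o a * p.1)) ((swap o b * (swap o a * p.1)) i) = i
      rw [f2 i]
      by_cases x : i = o
      · rw [if_pos x, f2, if_neg c2, if_pos rfl, x]
      · rw [if_neg x]
        by_cases y : i = b
        · rw [if_pos y, f2, if_pos rfl, y]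
        · rw [if_neg y]
          by_cases z : i = a
          · rw [if_pos z, f2, if_neg c1, if_neg hne, if_pos rfl, z]
          · rw [if_neg z, f2]
            have n1 : p.1 i ≠ o := fun h => z (p.1.injective (h.trans pa.symm))
            have n2 : p.1 i ≠ a := fun h => x (p.1.injective (h.trans e1.symm))
            have n3 : p.1 i ≠ b := fun h => y (p.1.injective (h.trans pb.symm))
            rw [if_neg n1, if_neg n3, if_neg n2, a1]
    · show M ((swap o b * (swap o a * p.1)) i) i = 1
      have hi : (swap o b * (swap o a * p.1)) i ≠ i := hi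
      rw [f2 i] at hi ⊢
      by_cases x : i = o
      · rw [if_pos x, x]; exact mMb
      · rw [if_neg x] at hi ⊢
        by_cases y : i = b
        · rw [if_pos y, y, hM]; exact mMb
        · rw [if_neg y] at hi ⊢
          by_cases z : i = a
          · rw [if_pos z] at hi; exact absurd z.symm hi
          · rw [if_neg z] at hi ⊢; exact a2 i hi
    · show (swap o a * (swap o b * p.2)) o ≠ o
      rw [f1, if_pos rfl]; exact c1
    · show (swap o b * (swap o a * p.1)) o ≠ o
      rw [f2, if_pos rfl]; exact c2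
    · show (swap o a * (swap o b * p.2)) i = i ∨ (swap o b * (swap o a * p.1)) i = i
      rw [f1, f2, if_neg hi, if_neg hi]
      by_cases y : i = a
      · right; rw [if_neg (by rw [y]; exact hne), if_pos y, y]
      · rw [if_neg y]
        by_cases z : i = b
        · left; rw [if_pos z, z]
        · rw [if_neg z, if_neg z, if_neg y]; exact (d i hi).symm
    · show (swap o a * (swap o b * p.2)) o = a
      rw [f1, if_pos rfl]
    · show (swap o b * (swap o a * p.1)) o = b
      rw [f2, if_pos rfl]
  refine ⟨f1, f2, mem, ?_⟩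
  obtain ⟨hw', g1, g2⟩ := mem_Wab.1 mem
  obtain ⟨⟨a1', -⟩, ⟨b1', -⟩, -, d'⟩ := mem_WW.1 hw'
  have pa' : (tg o a b p).1 a = o := by
    show (swap o a * (swap o b * p.2)) a = o
    rw [f1, if_neg c1, if_pos rfl]
  have qb' : (tg o a b p).2 b = o := by
    show (swap o b * (swap o a * p.1)) b = o
    rw [f2, if_neg c2, if_pos rfl]
  have pb' : (tg o a b p).1 b = b := by
    show (swap o a * (swap o b * p.2)) b = b
    rw [f1, if_neg c2, if_neg hne.symm, if_pos rfl]
  have qa' : (tg o a b p).2 a = a := by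
    show (swap o b * (swap o a * p.1)) a = a
    rw [f2, if_neg c1, if_neg hne, if_pos rfl]
  have k1 := tg_aux (t := (tg o a b p).2) c1.symm c2.symm hne g2 qb' qa'
  have k2 := tg_aux (t := (tg o a b p).1) c2.symm c1.symm hne.symm g1 pa' pb'
  refine Prod.ext ?_ ?_
  · ext i
    show (swap o a * (swap o b * (tg o a b p).2)) i = p.1 i
    rw [k1 i]
    by_cases x : i = o
    · rw [if_pos x, x, e1]
    · rw [if_neg x]
      by_cases y : i = a
      · rw [if_pos y, y, pa]
      · rw [if_neg y]
        by_cases z : i = b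
        · rw [if_pos z, z, pb]
        · rw [if_neg z]
          show (swap o b * (swap o a * p.1)) i = p.1 i
          rw [f2, if_neg x, if_neg z, if_neg y]
  · ext i
    show (swap o b * (swap o a * (tg o a b p).1)) i = p.2 i
    rw [k2 i]
    by_cases x : i = o
    · rw [if_pos x, x, e2]
    · rw [if_neg x]
      by_cases y : i = b
      · rw [if_pos y, y, qb]
      · rw [if_neg y]
        by_cases z : i = a
        · rw [if_pos z, z, qa]
        · rw [if_neg z]
          show (swap o a * (swap o b * p.2)) i = p.2 i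
          rw [f1, if_neg x, if_neg z, if_neg y]

/-- every fibre is odd -/
theorem Wab_odd {M : Matrix V V (ZMod 2)} (hM : ∀ i j, M i j = M j i) {o a b : V}
    (ha : M a o = 1) (hb : M b o = 1) (hoa : o ≠ a) (hob : o ≠ b) (hab : a ≠ b) :
    ((Wab M o a b).card : ZMod 2) = 1 := by
  classical
  have h := Finset.card_filter_add_card_filter_not (s := Wab M o a b) (fun p => tg o a b p = p)
  have h0 : (((Wab M o a b).filter fun p => ¬ tg o a b p = p).card : ZMod 2) = 0 := by
    rw [Finset.card_eq_sum_ones, Nat.cast_sum]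
    refine Finset.sum_involution (fun p _ => tg o a b p) ?_ ?_ ?_ ?_
    · intro _ _; decide
    · intro p hp _ he
      exact (Finset.mem_filter.1 hp).2 he
    · intro p hp
      obtain ⟨x, y⟩ := Finset.mem_filter.1 hp
      obtain ⟨-, -, c, d⟩ := tg_facts hM x
      refine Finset.mem_filter.2 ⟨c, fun he => y ?_⟩
      rw [d] at he
      exact he.symm
    · intro p hp
      exact (tg_facts hM (Finset.mem_filter.1 hp).1).2.2.2
  have h1 : ((Wab M o a b).filter fun p => tg o a b p = p) = {(swap o a, swap o b)} := by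
    ext p
    rw [Finset.mem_filter, Finset.mem_singleton]
    constructor
    · rintro ⟨hp, he⟩
      obtain ⟨f1, f2, -, -⟩ := tg_facts hM hp
      rw [he] at f1 f2
      obtain ⟨hw, e1, e2⟩ := mem_Wab.1 hp
      obtain ⟨-, -, -, d⟩ := mem_WW.1 hw
      have key : ∀ i, i ≠ o → i ≠ a → i ≠ b → p.1 i = i ∧ p.2 i = i := by
        intro i x y z
        have u := f1 i
        rw [if_neg x, if_neg y, if_neg z] at u
        rcases d i x with v | v
        · exact ⟨v, by rw [← u]; exact v⟩
        · exact ⟨by rw [u]; exact v, v⟩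
      refine Prod.ext ?_ ?_
      · ext i
        show p.1 i = swap o a i
        by_cases x : i = o
        · rw [x, swap_apply_left, e1]
        · by_cases y : i = a
          · rw [f1, if_neg x, if_pos y, y, swap_apply_right]
          · rw [swap_apply_of_ne_of_ne x y]
            by_cases z : i = b
            · rw [f1, if_neg x, if_neg y, if_pos z, z]
            · exact (key i x y z).1
      · ext i
        show p.2 i = swap o b i
        by_cases x : i = o
        · rw [x, swap_apply_left, e2]
        · by_cases y : i = b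
          · rw [f2, if_neg x, if_pos y, y, swap_apply_right]
          · rw [swap_apply_of_ne_of_ne x y]
            by_cases z : i = a
            · rw [f2, if_neg x, if_neg y, if_pos z, z]
            · exact (key i x z y).2
    · intro hp
      have sw : ∀ c : V, M c o = 1 → ((∀ i, swap o c (swap o c i) = i) ∧
          ∀ i, swap o c i ≠ i → M (swap o c i) i = 1) := by
        intro c hc
        refine ⟨fun i => swap_apply_self _ _ _, fun i hi => ?_⟩
        by_cases x : i = o
        · rw [x, swap_apply_left]; exact hc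
        · by_cases y : i = c
          · rw [y, swap_apply_right, hM]; exact hc
          · exact absurd (swap_apply_of_ne_of_ne x y) hi
      have hm : p ∈ Wab M o a b := by
        rw [hp, mem_Wab, mem_WW]
        refine ⟨⟨sw a ha, sw b hb, ⟨?_, ?_⟩, fun i hi => ?_⟩, swap_apply_left _ _, swap_apply_left _ _⟩
        · show swap o a o ≠ o
          rw [swap_apply_left]; exact hoa.symm
        · show swap o b o ≠ o
          rw [swap_apply_left]; exact hob.symm
        · show swap o a i = i ∨ swap o b i = i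
          by_cases y : i = a
          · right; exact swap_apply_of_ne_of_ne hi (by rw [y]; exact hab)
          · left; exact swap_apply_of_ne_of_ne hi y
      refine ⟨hm, ?_⟩
      rw [hp]
      unfold tg
      rw [swap_mul_self, mul_one, swap_mul_self, mul_one]
  rw [← h, Nat.cast_add, h0, add_zero, h1, Finset.card_singleton, Nat.cast_one]

/-- the count modulo 4 -/
theorem WW_card {M : Matrix V V (ZMod 2)} (hM : ∀ i j, M i j = M j i) (h0 : ∀ i, M i i = 0) (o : V) :
    ((WW M o).card : ZMod 4) =
      ((univ.filter fun a => M a o = 1).card : ZMod 4) *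
        (((univ.filter fun a => M a o = 1).card : ZMod 4) - 1) := by
  set R := univ.filter fun a => M a o = 1 with hR
  have hmap : ∀ p ∈ WW M o, (p.1 o, p.2 o) ∈ R.offDiag := by
    intro p hp
    have hne := Wab_ne hp
    obtain ⟨⟨a1, a2⟩, ⟨b1, b2⟩, ⟨c1, c2⟩, d⟩ := mem_WW.1 hp
    rw [Finset.mem_offDiag, hR, Finset.mem_filter, Finset.mem_filter]
    exact ⟨⟨Finset.mem_univ _, a2 o c1⟩, ⟨Finset.mem_univ _, b2 o c2⟩, hne⟩
  have hcard : (WW M o).card = ∑ q ∈ R.offDiag, (Wab M o q.1 q.2).card := by
    rw [Finset.card_eq_sum_card_fiberwise hmap]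
    refine Finset.sum_congr rfl fun q _ => ?_
    unfold Wab
    congr 1
    ext p
    simp only [Finset.mem_filter, Prod.ext_iff]
  have hodd : ∀ q ∈ R.offDiag, (Wab M o q.1 q.2).card = 1 + 2 * ((Wab M o q.1 q.2).card / 2) := by
    intro q hq
    rw [Finset.mem_offDiag, hR, Finset.mem_filter, Finset.mem_filter] at hq
    have hz : ∀ c, M c o = 1 → o ≠ c := by
      intro c hc e
      rw [← e, h0] at hc
      exact absurd hc (by decide)
    have h1 := Wab_odd hM hq.1.2 hq.2.1.2 (hz _ hq.1.2) (hz _ hq.2.1.2) hq.2.2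
    have h2 : (Wab M o q.1 q.2).card % 2 = 1 := by
      have := (ZMod.natCast_eq_natCast_iff' (Wab M o q.1 q.2).card 1 2).1 (by rw [h1]; rfl)
      simpa using this
    omega
  have heven : ((∑ q ∈ R.offDiag, (Wab M o q.1 q.2).card / 2 : ℕ) : ZMod 2) = 0 := by
    rw [Nat.cast_sum]
    refine Finset.sum_involution (fun q _ => (q.2, q.1)) ?_ ?_ ?_ ?_
    · intro q _
      show ((((Wab M o q.1 q.2).card / 2 : ℕ) : ZMod 2)) + (((Wab M o q.2 q.1).card / 2 : ℕ) : ZMod 2) = 0
      rw [Wab_swap M o q.2 q.1]
      exact CharTwo.add_self_eq_zero _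
    · intro q hq _ he
      rw [Finset.mem_offDiag] at hq
      exact hq.2.2 (Prod.ext_iff.1 he).2
    · intro q hq
      rw [Finset.mem_offDiag] at hq ⊢
      exact ⟨hq.2.1, hq.1, hq.2.2.symm⟩
    · intro q _; rfl
  rw [hcard, Finset.sum_congr rfl hodd, Finset.sum_add_distrib, ← Finset.mul_sum,
    Finset.sum_const, smul_eq_mul, mul_one, Finset.offDiag_card]
  obtain ⟨k, hk⟩ : 2 ∣ ∑ q ∈ R.offDiag, (Wab M o q.1 q.2).card / 2 :=
    (ZMod.natCast_eq_zero_iff _ _).1 heven
  rw [hk, Nat.cast_add, Nat.cast_sub (Nat.le_mul_self _), Nat.cast_mul]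
  have h4 : ((2 * (2 * k) : ℕ) : ZMod 4) = 0 := by
    rw [ZMod.natCast_eq_zero_iff]
    exact ⟨k, by ring⟩
  rw [h4]
  ring

end Pool.Agent.MP239067
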