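import Pool.Agent.Lib.MP_239067_co.PMX.Defs
import Pool.Agent.Lib.MP_239067_co.PMX.Pairs

/-!
(c) KEY (helper62). The signed number, modulo 4, of the diagonals for which the bordered matrix is
nonsingular.
-/

set_option autoImplicit false

open Finset

namespace Pool.Agent.MP239067

section
variable {ι : Type*} [Fintype ι] [DecidableEq ι]

/-- the bordered matrix without diagonal -/
def Mh (K : Matrix ι ι (ZMod 2)) (ρ : ι → ZMod 2) : Matrix (Option ι) (Option ι) (ZMod 2) :=
  fun i j => match i, j with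
  | some a, some b => if a = b then 0 else K a b
  | some a, none => ρ a
  | none, some b => ρ b
  | none, none => 0

/-- extension by 0 -/
def ext0 (D : ι → ZMod 2) : Option ι → ZMod 2 := fun x => match x with
  | some i => D i
  | none => 0

theorem sg_add (a b : ZMod 2) : sg (a + b) = sg a * sg b := by
  revert a b; decide

omit [Fintype ι] in
theorem Mh_symm {K : Matrix ι ι (ZMod 2)} (hK : K.IsSymm) (ρ : ι → ZMod 2) (i j : Option ι) :
    Mh K ρ i j = Mh K ρ j i := by
  rcases i with _ | a <;> rcases j with _ | b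
  · rfl
  · rfl
  · rfl
  · show (if a = b then 0 else K a b) = (if b = a then 0 else K b a)
    by_cases h : a = b
    · rw [if_pos h, if_pos h.symm]
    · rw [if_neg h, if_neg (Ne.symm h)]
      exact hK.apply b a

omit [Fintype ι] in
theorem Mh_diag (K : Matrix ι ι (ZMod 2)) (ρ : ι → ZMod 2) (i : Option ι) : Mh K ρ i i = 0 := by
  rcases i with _ | a
  · rfl
  · show (if a = a then 0 else K a a) = 0
    rw [if_pos rfl]

omit [Fintype ι] in
theorem Khat_eq (K : Matrix ι ι (ZMod 2)) (ρ D : ι → ZMod 2) :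
    Khat K ρ D = Mh K ρ + Matrix.diagonal (ext0 fun i => K i i + D i) := by
  ext i j
  rw [Matrix.add_apply]
  rcases i with _ | a <;> rcases j with _ | b
  · rw [Matrix.diagonal_apply_eq]; rfl
  · rw [Matrix.diagonal_apply_ne _ (by simp)]; show ρ b = ρ b + 0; rw [add_zero]
  · rw [Matrix.diagonal_apply_ne _ (by simp)]; show ρ a = ρ a + 0; rw [add_zero]
  · show K a b + (if a = b then D a else 0) = (if a = b then 0 else K a b) + _
    by_cases h : a = b
    · subst h
      rw [if_pos rfl, if_pos rfl, Matrix.diagonal_apply_eq, zero_add]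
      rfl
    · rw [if_neg h, if_neg h, Matrix.diagonal_apply_ne _ (fun e => h (Option.some.inj e))]

theorem ite_cnt (n : ℕ) : (((if (n : ZMod 2) = 0 then (0 : ℤ) else 1) : ℤ) : ZMod 4) = (n : ZMod 4) ^ 2 := by
  have h2 : ((n : ZMod 2) = 0) ↔ n % 2 = 0 := by
    rw [ZMod.natCast_eq_zero_iff]
    omega
  rcases Nat.mod_two_eq_zero_or_one n with h | h
  · rw [if_pos (h2.2 h)]
    obtain ⟨k, hk⟩ : ∃ k, n = 2 * k := ⟨n / 2, by omega⟩
    rw [hk, ← Nat.cast_pow, Int.cast_zero, eq_comm, ZMod.natCast_eq_zero_iff]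
    exact ⟨k ^ 2, by ring⟩
  · rw [if_neg (fun e => by rw [h2] at e; omega)]
    obtain ⟨k, hk⟩ : ∃ k, n = 2 * k + 1 := ⟨n / 2, by omega⟩
    have : ((2 * k + 1 : ℕ) : ZMod 4) ^ 2 = 1 + ((4 * (k ^ 2 + k) : ℕ) : ZMod 4) := by
      push_cast; ring
    rw [hk, this, Int.cast_one, (ZMod.natCast_eq_zero_iff _ _).2 ⟨k ^ 2 + k, rfl⟩, add_zero]

/-- the square of the count as a sum over pairs -/
theorem cnt_sq (M : Matrix (Option ι) (Option ι) (ZMod 2)) (D : ι → ZMod 2) :
    (cnt M (ext0 D) : ZMod 4) ^ 2 = ∑ p ∈ ivs M ×ˢ ivs M,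
      (if p.1 none ≠ none ∧ p.2 none ≠ none then (1 : ZMod 4) else 0) *
        ∏ i : ι, (if (p.1 (some i) = some i ∨ p.2 (some i) = some i) → D i = 1 then (1 : ZMod 4) else 0) := by
  have h1 : ∀ s : Equiv.Perm (Option ι), (∀ x, s x = x → ext0 D x = 1) ↔
      (s none ≠ none ∧ ∀ i : ι, s (some i) = some i → D i = 1) := by
    intro s
    constructor
    · intro h
      refine ⟨fun e => ?_, fun i hi => h (some i) hi⟩
      have := h none e
      exact absurd this (by show (0 : ZMod 2) ≠ 1; decide)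
    · rintro ⟨a, b⟩ x hx
      rcases x with _ | i
      · exact absurd hx a
      · exact b i hx
  have h2 : (cnt M (ext0 D) : ZMod 4) =
      ∑ s ∈ ivs M, if (s none ≠ none ∧ ∀ i : ι, s (some i) = some i → D i = 1) then (1 : ZMod 4) else 0 := by
    unfold cnt
    rw [Finset.sum_ite, Finset.sum_const_zero, add_zero, Finset.sum_const, nsmul_eq_mul, mul_one]
    congr 2
    ext s
    rw [Finset.mem_filter, Finset.mem_filter, h1]
  rw [h2, sq, Finset.sum_mul_sum, ← Finset.sum_product']
  refine Finset.sum_congr rfl fun p _ => ?_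
  rw [Finset.prod_ite_zero]
  simp only [Finset.prod_const_one, Finset.mem_univ, true_implies]
  by_cases a : p.1 none ≠ none ∧ ∀ i : ι, p.1 (some i) = some i → D i = 1
  · by_cases b : p.2 none ≠ none ∧ ∀ i : ι, p.2 (some i) = some i → D i = 1
    · rw [if_pos a, if_pos b, if_pos ⟨a.1, b.1⟩, if_pos]
      intro i hi
      rcases hi with h | h
      · exact a.2 i h
      · exact b.2 i h
    · rw [if_neg b, mul_zero]
      by_cases c : p.1 none ≠ none ∧ p.2 none ≠ none
      · rw [if_pos c, one_mul, if_neg]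
        intro h
        exact b ⟨c.2, fun i hi => h i (Or.inr hi)⟩
      · rw [if_neg c, zero_mul]
  · rw [if_neg a, zero_mul]
    by_cases c : p.1 none ≠ none ∧ p.2 none ≠ none
    · rw [if_pos c, one_mul, if_neg]
      intro h
      exact a ⟨c.1, fun i hi => h i (Or.inl hi)⟩
    · rw [if_neg c, zero_mul]

theorem sum_sg (c : Prop) [Decidable c] :
    (∑ d : ZMod 2, ((sg d : ℤ) : ZMod 4) * (if c → d = 1 then (1 : ZMod 4) else 0)) = if c then -1 else 0 := by
  by_cases h : c
  · rw [if_pos h]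
    simp only [h, true_implies]
    decide
  · rw [if_neg h]
    simp only [h, false_implies, if_true, mul_one]
    decide

/-- the sum over all diagonals -/
theorem sum_D (M : Matrix (Option ι) (Option ι) (ZMod 2)) :
    (∑ D : ι → ZMod 2, (∏ i, ((sg (D i) : ℤ) : ZMod 4)) * (cnt M (ext0 D) : ZMod 4) ^ 2) =
      (-1) ^ Fintype.card ι * ((WW M none).card : ZMod 4) := by
  simp only [cnt_sq, Finset.mul_sum]
  rw [Finset.sum_comm]
  have h1 : ∀ p ∈ ivs M ×ˢ ivs M,
      (∑ D : ι → ZMod 2, (∏ i, ((sg (D i) : ℤ) : ZMod 4)) *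
        ((if p.1 none ≠ none ∧ p.2 none ≠ none then (1 : ZMod 4) else 0) *
        ∏ i : ι, (if (p.1 (some i) = some i ∨ p.2 (some i) = some i) → D i = 1 then (1 : ZMod 4) else 0))) =
      if (p.1 none ≠ none ∧ p.2 none ≠ none) ∧ ∀ i, i ≠ none → p.1 i = i ∨ p.2 i = i
        then (-1) ^ Fintype.card ι else 0 := by
    intro p _
    have e1 : ∀ D : ι → ZMod 2, (∏ i, ((sg (D i) : ℤ) : ZMod 4)) *
        ((if p.1 none ≠ none ∧ p.2 none ≠ none then (1 : ZMod 4) else 0) *
        ∏ i : ι, (if (p.1 (some i) = some i ∨ p.2 (some i) = some i) → D i = 1 then (1 : ZMod 4) else 0)) =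
        (if p.1 none ≠ none ∧ p.2 none ≠ none then (1 : ZMod 4) else 0) *
        ∏ i : ι, (((sg (D i) : ℤ) : ZMod 4) *
          (if (p.1 (some i) = some i ∨ p.2 (some i) = some i) → D i = 1 then (1 : ZMod 4) else 0)) := by
      intro D
      rw [Finset.prod_mul_distrib]
      ring
    rw [Finset.sum_congr rfl fun D _ => e1 D, ← Finset.mul_sum]
    have e2 : (∑ D : ι → ZMod 2, ∏ i : ι, (((sg (D i) : ℤ) : ZMod 4) *
          (if (p.1 (some i) = some i ∨ p.2 (some i) = some i) → D i = 1 then (1 : ZMod 4) else 0))) =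
        ∏ i : ι, ∑ d : ZMod 2, (((sg d : ℤ) : ZMod 4) *
          (if (p.1 (some i) = some i ∨ p.2 (some i) = some i) → d = 1 then (1 : ZMod 4) else 0)) := by
      rw [Finset.prod_univ_sum, Fintype.piFinset_univ]
    rw [e2, Finset.prod_congr rfl fun i _ => sum_sg _, Finset.prod_ite_zero]
    simp only [Finset.mem_univ, true_implies, Finset.prod_const, Finset.card_univ]
    have e3 : (∀ i : Option ι, i ≠ none → p.1 i = i ∨ p.2 i = i) ↔
        (∀ i : ι, p.1 (some i) = some i ∨ p.2 (some i) = some i) := by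
      constructor
      · intro h i; exact h (some i) (by simp)
      · intro h x hx
        rcases x with _ | i
        · exact absurd rfl hx
        · exact h i
    by_cases a : p.1 none ≠ none ∧ p.2 none ≠ none
    · by_cases b : ∀ i : ι, p.1 (some i) = some i ∨ p.2 (some i) = some i
      · rw [if_pos a, if_pos b, one_mul, if_pos ⟨a, e3.2 b⟩]
      · rw [if_neg b, mul_zero, if_neg (fun h => b (e3.1 h.2))]
    · rw [if_neg a, zero_mul, if_neg (fun h => a h.1)]
  rw [Finset.sum_congr rfl h1, Finset.sum_ite, Finset.sum_const_zero, add_zero, Finset.sum_const,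
    nsmul_eq_mul, mul_comm]
  rfl

theorem keyM (K : Matrix ι ι (ZMod 2)) (hK : K.IsSymm)
    (ρ : ι → ZMod 2) (hr : (univ.filter (fun i => ρ i = 1)).card % 4 = 3) :
    (∑ D : ι → ZMod 2, (∏ i, sg (D i)) * (if (Khat K ρ D).det = 0 then (0 : ℤ) else 1)) % 4 = 2 := by
  have hsym := Mh_symm hK ρ
  have hdg := Mh_diag K ρ
  have hR : (univ.filter fun a : Option ι => Mh K ρ a none = 1).card =
      (univ.filter (fun i => ρ i = 1)).card := by
    refine Eq.trans ?_ (Finset.card_map (s := univ.filter (fun i => ρ i = 1)) Function.Embedding.some)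
    refine congrArg Finset.card ?_
    ext x
    simp only [Finset.mem_filter, Finset.mem_univ, true_and, Finset.mem_map,
      Function.Embedding.some_apply]
    rcases x with _ | i
    · constructor
      · intro h; exact absurd h (by show (0 : ZMod 2) ≠ 1; decide)
      · rintro ⟨a, -, h⟩; exact absurd h (by simp)
    · constructor
      · intro h; exact ⟨i, h, rfl⟩
      · rintro ⟨a, h1, h2⟩
        rw [← Option.some.inj h2]; exact h1
  have hW := WW_card hsym hdg none
  rw [hR] at hW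
  set r := (univ.filter (fun i => ρ i = 1)).card with hrd
  have hr4 : (r : ZMod 4) = 3 := by
    have : (r : ZMod 4) = ((3 : ℕ) : ZMod 4) := (ZMod.natCast_eq_natCast_iff' r 3 4).2 (by rw [hr])
    rw [this]; rfl
  rw [hr4] at hW
  have hW2 : ((WW (Mh K ρ) none).card : ZMod 4) = 2 := by rw [hW]; decide
  set S := ∑ D : ι → ZMod 2, (∏ i, sg (D i)) * (if (Khat K ρ D).det = 0 then (0 : ℤ) else 1) with hS
  have h1 : S = (∏ i, sg (K i i)) *
      ∑ D : ι → ZMod 2, (∏ i, sg (D i)) *
        (if ((cnt (Mh K ρ) (ext0 D) : ℕ) : ZMod 2) = 0 then (0 : ℤ) else 1) := by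
    rw [hS, Finset.mul_sum]
    refine Fintype.sum_equiv (Equiv.addLeft fun i => K i i) _ _ fun D => ?_
    have e0 : (Equiv.addLeft fun i => K i i) D = fun i => K i i + D i := rfl
    rw [e0, Khat_eq, det_cnt _ hsym hdg, ← mul_assoc, ← Finset.prod_mul_distrib]
    congr 1
    refine Finset.prod_congr rfl fun i _ => ?_
    rw [sg_add, ← mul_assoc]
    have : sg (K i i) * sg (K i i) = 1 := by
      generalize K i i = a
      revert a; decide
    rw [this, one_mul]
  have h2 : ((∑ D : ι → ZMod 2, (∏ i, sg (D i)) *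
        (if ((cnt (Mh K ρ) (ext0 D) : ℕ) : ZMod 2) = 0 then (0 : ℤ) else 1) : ℤ) : ZMod 4) =
      (-1) ^ Fintype.card ι * 2 := by
    rw [← hW2, ← sum_D, Int.cast_sum]
    refine Finset.sum_congr rfl fun D _ => ?_
    rw [Int.cast_mul, ite_cnt, Int.cast_prod]
  have hpm : ∀ a : ZMod 4, (a = 1 ∨ a = -1) → a * 2 = 2 := by decide
  have h3 : ((∏ i, sg (K i i) : ℤ) : ZMod 4) = 1 ∨ ((∏ i, sg (K i i) : ℤ) : ZMod 4) = -1 := by
    rw [Int.cast_prod]
    refine Finset.prod_induction _ (fun a : ZMod 4 => a = 1 ∨ a = -1) ?_ (Or.inl rfl) ?_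
    · decide
    · intro i _
      generalize K i i = a
      revert a; decide
  have h4 : ((-1 : ZMod 4)) ^ Fintype.card ι = 1 ∨ ((-1 : ZMod 4)) ^ Fintype.card ι = -1 :=
    neg_one_pow_eq_or _ _
  have h5 : (S : ZMod 4) = 2 := by
    rw [h1, Int.cast_mul, h2, hpm _ h4, hpm _ h3]
  have h6 : ((S : ℤ) : ZMod 4) = ((2 : ℤ) : ZMod 4) := by rw [h5]; rfl
  have h7 := (ZMod.intCast_eq_intCast_iff' S 2 4).1 h6
  simpa using h7

end

end Pool.Agent.MP239067
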