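import Mathlib

/-!
The determinant of a symmetric matrix over GF(2), modulo 2, counts the matchings which cover all
indices with diagonal entry 0.
-/

set_option autoImplicit false

namespace Pool.Agent.MP239067

open Finset Equiv Matrix

variable {V : Type*} [Fintype V] [DecidableEq V]

/-- involutions along the edges of `M` -/
def ivs (M : Matrix V V (ZMod 2)) : Finset (Perm V) :=
  univ.filter fun s => (∀ i, s (s i) = i) ∧ ∀ i, s i ≠ i → M (s i) i = 1

/-- number of involutions along `M` all of whose fixed points have diagonal entry 1 -/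
def cnt (M : Matrix V V (ZMod 2)) (T : V → ZMod 2) : ℕ :=
  ((ivs M).filter fun s => ∀ i, s i = i → T i = 1).card

omit [Fintype V] [DecidableEq V] in
theorem inv_self (s : Perm V) (i : V) : s⁻¹ (s i) = i := s.symm_apply_apply i

theorem z2 (a : ZMod 2) (h : a ≠ 0) : a = 1 := by
  revert h; revert a; decide

omit [DecidableEq V] in
theorem prod_z2 (g : V → ZMod 2) : ∏ i, g i = if ∀ i, g i = 1 then 1 else 0 := by
  by_cases h : ∀ i, g i = 1
  · rw [if_pos h]; exact Finset.prod_eq_one fun i _ => h i
  · rw [if_neg h]
    push Not at h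
    obtain ⟨i, hi⟩ := h
    refine Finset.prod_eq_zero (Finset.mem_univ i) ?_
    by_contra h0
    exact hi (z2 _ h0)

theorem det_sum (A : Matrix V V (ZMod 2)) : A.det = ∑ s : Perm V, ∏ i, A (s i) i := by
  rw [Matrix.det_apply']
  refine Finset.sum_congr rfl fun s _ => ?_
  have : (((Perm.sign s : ℤˣ) : ℤ) : ZMod 2) = 1 := by
    rcases Int.units_eq_one_or (Perm.sign s) with h | h <;> rw [h] <;> decide
  rw [this, one_mul]

theorem det_inv (A : Matrix V V (ZMod 2)) (hA : ∀ i j, A i j = A j i) :
    A.det = ∑ s ∈ univ.filter (fun s : Perm V => ∀ i, s (s i) = i), ∏ i, A (s i) i := by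
  rw [det_sum, ← Finset.sum_filter_add_sum_filter_not univ (fun s : Perm V => ∀ i, s (s i) = i)]
  have h0 : ∑ s ∈ univ.filter (fun s : Perm V => ¬ ∀ i, s (s i) = i), ∏ i, A (s i) i = 0 := by
    have hp : ∀ s : Perm V, ∏ i, A (s⁻¹ i) i = ∏ i, A (s i) i := by
      intro s
      rw [← Equiv.prod_comp s (fun i => A (s⁻¹ i) i)]
      refine Finset.prod_congr rfl fun i _ => ?_
      rw [inv_self, hA]
    refine Finset.sum_involution (fun s _ => s⁻¹) ?_ ?_ ?_ ?_
    · intro s _
      rw [hp s]
      exact CharTwo.add_self_eq_zero _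
    · intro s hs _ he
      rw [Finset.mem_filter] at hs
      refine hs.2 fun i => ?_
      have := congrArg (fun t : Perm V => t (s i)) he
      simp only [inv_self] at this
      exact this.symm
    · intro s hs
      rw [Finset.mem_filter] at hs ⊢
      refine ⟨Finset.mem_univ _, fun h => hs.2 fun i => ?_⟩
      have h1 := h (s (s i))
      rw [inv_self, inv_self] at h1
      exact h1.symm
    · intro s _
      exact inv_inv s
  rw [h0, add_zero]

theorem det_cnt (M : Matrix V V (ZMod 2)) (hM : ∀ i j, M i j = M j i) (h0 : ∀ i, M i i = 0)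
    (T : V → ZMod 2) : (M + Matrix.diagonal T).det = (cnt M T : ZMod 2) := by
  have hs : ∀ i j, (M + Matrix.diagonal T) i j = (M + Matrix.diagonal T) j i := by
    intro i j
    rw [Matrix.add_apply, Matrix.add_apply, hM i j]
    congr 1
    by_cases h : i = j
    · rw [h]
    · rw [Matrix.diagonal_apply_ne _ h, Matrix.diagonal_apply_ne _ (Ne.symm h)]
  have he : ∀ i, (M + Matrix.diagonal T) i i = T i := by
    intro i
    rw [Matrix.add_apply, h0, zero_add]
    rw [Matrix.diagonal_apply_eq]
  have hn : ∀ i j, i ≠ j → (M + Matrix.diagonal T) i j = M i j := by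
    intro i j h
    rw [Matrix.add_apply]
    rw [Matrix.diagonal_apply_ne _ h, add_zero]
  rw [det_inv _ hs]
  have h1 : ∀ s ∈ univ.filter (fun s : Perm V => ∀ i, s (s i) = i),
      ∏ i, (M + Matrix.diagonal T) (s i) i =
        if (∀ i, s i ≠ i → M (s i) i = 1) ∧ (∀ i, s i = i → T i = 1) then 1 else 0 := by
    intro s _
    rw [prod_z2]
    refine if_congr ?_ rfl rfl
    constructor
    · intro h
      constructor
      · intro i hi
        rw [← hn _ _ hi]; exact h i
      · intro i hi
        have := h i
        rw [hi, he] at this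
        exact this
    · rintro ⟨ha, hb⟩ i
      by_cases hi : s i = i
      · rw [hi, he, hb i hi]
      · rw [hn _ _ hi]; exact ha i hi
  rw [Finset.sum_congr rfl h1, Finset.sum_ite, Finset.sum_const_zero, add_zero, Finset.sum_const,
    nsmul_eq_mul, mul_one]
  congr 1
  unfold cnt ivs
  congr 1
  ext s
  simp only [Finset.mem_filter, Finset.mem_univ, true_and]
  tauto

end Pool.Agent.MP239067
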